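import Pool.Agent.H94.Div.Nec3

/-!
# The corrected modulus `ω̃(t) = t · inf_{0<s≤t} ω(s)/s`
-/

set_option autoImplicit false

open MeasureTheory Real Set Filter
open scoped Interval Topology

namespace Pool.Agent.H86.Div

open Pool.Agent.H94.Div

/-- the corrected modulus `t · inf_{0<s≤t} ω(s)/s` -/
noncomputable def adm (ω : ℝ → ℝ) (t : ℝ) : ℝ := t * ⨅ s : Ioc (0 : ℝ) t, ω s / s

variable {ω : ℝ → ℝ}

lemma ratio_nonneg (hω : IsModulus ω) {t : ℝ} (ht1 : t < 1) (s : Ioc (0 : ℝ) t) : 0 ≤ ω s / s := by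
  have h1 := s.2.1
  have h2 := hω.2.2 (s : ℝ) ⟨h1, s.2.2.trans_lt ht1⟩
  positivity

lemma ratio_bdd (hω : IsModulus ω) {t : ℝ} (ht1 : t < 1) :
    BddBelow (range fun s : Ioc (0 : ℝ) t => ω s / s) :=
  ⟨0, by rintro _ ⟨s, rfl⟩; exact ratio_nonneg hω ht1 s⟩

lemma adm_nonneg (hω : IsModulus ω) {t : ℝ} (ht0 : 0 < t) (ht1 : t < 1) : 0 ≤ adm ω t :=
  mul_nonneg ht0.le (Real.iInf_nonneg fun s => ratio_nonneg hω ht1 s)

lemma adm_le (hω : IsModulus ω) {s t : ℝ} (hs : 0 < s) (hst : s ≤ t) (ht1 : t < 1) :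
    adm ω t ≤ t * (ω s / s) :=
  mul_le_mul_of_nonneg_left (ciInf_le (ratio_bdd hω ht1) ⟨s, hs, hst⟩) (hs.le.trans hst)

lemma adm_le_self (hω : IsModulus ω) {t : ℝ} (ht0 : 0 < t) (ht1 : t < 1) : adm ω t ≤ ω t := by
  have h := adm_le hω ht0 le_rfl ht1
  rwa [mul_div_cancel₀ _ ht0.ne'] at h

lemma le_adm {t X : ℝ} (ht0 : 0 < t) (h : ∀ s, 0 < s → s ≤ t → X ≤ t * (ω s / s)) :
    X ≤ adm ω t := by
  have : Nonempty (Ioc (0 : ℝ) t) := ⟨⟨t, ht0, le_rfl⟩⟩
  unfold adm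
  rw [Real.mul_iInf_of_nonneg ht0.le]
  exact le_ciInf fun s => h s s.2.1 s.2.2

lemma adm_mono (hω : IsModulus ω) {s t : ℝ} (hs : 0 < s) (hst : s ≤ t) (ht1 : t < 1) :
    adm ω s ≤ adm ω t := by
  refine le_adm (hs.trans_le hst) fun r hr hrt => ?_
  rcases le_or_gt r s with h | h
  · refine (adm_le hω hr h (hst.trans_lt ht1)).trans ?_
    have h2 := hω.2.2 r ⟨hr, hrt.trans_lt ht1⟩
    gcongr
  · refine (adm_le_self hω hs (hst.trans_lt ht1)).trans ?_
    have h1 : ω s ≤ ω r := hω.2.1 ⟨hs, hst.trans_lt ht1⟩ ⟨hr, hrt.trans_lt ht1⟩ h.le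
    have h2 := hω.2.2 r ⟨hr, hrt.trans_lt ht1⟩
    have h3 : ω r ≤ t * (ω r / r) := by
      rw [← mul_div_assoc, le_div_iff₀ hr, mul_comm]
      gcongr
    exact h1.trans h3

lemma adm_growth (hω : IsModulus ω) {s t : ℝ} (hs : 0 < s) (hst : s ≤ t) (ht1 : t < 1) :
    adm ω t ≤ t / s * adm ω s := by
  have hts : 0 < t / s := div_pos (hs.trans_le hst) hs
  have h : s / t * adm ω t ≤ adm ω s := by
    refine le_adm hs fun r hr hrs => ?_
    have h1 := adm_le hω hr (hrs.trans hst) ht1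
    calc s / t * adm ω t ≤ s / t * (t * (ω r / r)) :=
          mul_le_mul_of_nonneg_left h1 (div_pos hs (hs.trans_le hst)).le
      _ = s * (ω r / r) := by
          have := (hs.trans_le hst).ne'
          field_simp
  calc adm ω t = t / s * (s / t * adm ω t) := by
        have := (hs.trans_le hst).ne'
        field_simp
    _ ≤ _ := mul_le_mul_of_nonneg_left h hts.le

/-- frozen beyond `1/2` -/
noncomputable def WA (ω : ℝ → ℝ) (h : ℝ) : ℝ := adm ω (min h (1 / 2))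

lemma WA_nonneg (hω : IsModulus ω) {h : ℝ} (h0 : 0 < h) : 0 ≤ WA ω h :=
  adm_nonneg hω (min_mem h0).1 (min_mem h0).2

lemma WA_mono (hω : IsModulus ω) {s h : ℝ} (hs : 0 < s) (hsh : s ≤ h) : WA ω s ≤ WA ω h :=
  adm_mono hω (min_mem hs).1 (min_le_min_right _ hsh) (min_mem (hs.trans_le hsh)).2

lemma WA_le_adm (hω : IsModulus ω) {h : ℝ} (h0 : 0 < h) (h1 : h < 1) : WA ω h ≤ adm ω h :=
  adm_mono hω (min_mem h0).1 (min_le_left _ _) h1

lemma WA_eq {h : ℝ} (h1 : h ≤ 1 / 2) : WA ω h = adm ω h := by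
  unfold WA
  rw [min_eq_left h1]

lemma WA_eq' {h : ℝ} (h1 : 1 / 2 ≤ h) : WA ω h = adm ω (1 / 2) := by
  unfold WA
  rw [min_eq_right h1]

lemma WA_growth (hω : IsModulus ω) {s h : ℝ} (hs : 0 < s) (hsh : s ≤ h) :
    WA ω h ≤ 1 * (h / s) * WA ω s := by
  rw [one_mul]
  have hh : 0 < h := hs.trans_le hsh
  rcases le_or_gt s (1 / 2) with h2 | h2
  · rw [WA_eq h2]
    have h0 := adm_nonneg hω hs (h2.trans_lt (by norm_num))
    rcases le_or_gt h (1 / 2) with h3 | h3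
    · rw [WA_eq h3]
      exact adm_growth hω hs hsh (h3.trans_lt (by norm_num))
    · rw [WA_eq' h3.le]
      refine (adm_growth hω hs h2 (by norm_num)).trans ?_
      gcongr
  · rw [WA_eq' h2.le, WA_eq' (h2.le.trans hsh)]
    have h4 : 1 ≤ h / s := by rw [le_div_iff₀ hs]; linarith
    exact le_mul_of_one_le_left (adm_nonneg hω (by norm_num) (by norm_num)) h4

lemma WData_adm (hω : IsModulus ω) (hpos : 0 < adm ω (1 / 2)) : WData (WA ω) 1 := by
  refine ⟨fun h h0 h1 => ?_, fun s h hs hsh _ => WA_mono hω hs hsh,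
    fun s h hs hsh _ => WA_growth hω hs hsh, le_rfl⟩
  have h2 : WA ω 1 ≤ 1 * (1 / h) * WA ω h := WA_growth hω h0 h1
  rw [WA_eq' (show (1 : ℝ) / 2 ≤ 1 by norm_num)] at h2
  by_contra hc
  push Not at hc
  have h3 : 1 * (1 / h) * WA ω h ≤ 0 := mul_nonpos_of_nonneg_of_nonpos (by positivity) hc
  linarith

/-- oscillation bounds of `f ∈ BMO_ω` in terms of the corrected modulus -/
lemma osc_adm (hω : IsModulus ω) {f : Circle → ℂ} (hf : InBMO ω f) :
    ∃ A, 0 < A ∧ ∀ a h, 0 < h → h ≤ 1 → Osc (fun x => f (pt x)) a (a + h) (A * WA ω h) := by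
  obtain ⟨C, hC, hosc⟩ := hosc_of_InBMO hω hf
  have hli := hf.1.li
  refine ⟨72 * C + 1, by positivity, fun a h h0 h1 => ?_⟩
  set m := min h (1 / 2) with hm
  have hm0 : 0 < m := (min_mem h0).1
  have hm1 : m < 1 := (min_mem h0).2
  have hmh : m ≤ h := min_le_left _ _
  have hhm : h ≤ 2 * m := by
    rcases min_cases h (1 / 2) with ⟨e, _⟩ | ⟨e, _⟩ <;> rw [hm, e] <;> linarith
  have key : ∀ s, 0 < s → s ≤ m →
      (∫ x in a..(a + h), ‖f (pt x) - avg (fun x => f (pt x)) a (a + h)‖) ≤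
        (72 * C * h) * (m * (ω s / s)) := by
    intro s hs hsm
    have h2 := osc_step hω hli hC hosc hs (hsm.trans_lt hm1) h0 a
    unfold Osc at h2
    have hωs := hω.2.2 s ⟨hs, hsm.trans_lt hm1⟩
    have e : a + h - a = h := by ring
    rw [e] at h2
    refine h2.trans ?_
    have h3 : h / s + 1 ≤ 2 * (h / s) := by
      have : 1 ≤ h / s := by rw [le_div_iff₀ hs]; linarith
      linarith
    have h4 : h / s ≤ 2 * (m / s) := by
      rw [div_le_iff₀ hs]
      calc h ≤ 2 * m := hhm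
        _ = 2 * (m / s) * s := by field_simp
    calc 18 * (h / s + 1) * (C * ω s) * h ≤ 18 * (2 * (2 * (m / s))) * (C * ω s) * h := by
          gcongr
          linarith
      _ = (72 * C * h) * (m * (ω s / s)) := by ring
  have hint0 : 0 ≤ ∫ x in a..(a + h), ‖f (pt x) - avg (fun x => f (pt x)) a (a + h)‖ :=
    intervalIntegral.integral_nonneg (by linarith) fun _ _ => norm_nonneg _
  unfold Osc
  have e : a + h - a = h := by ring
  rw [e]
  have hW := WA_nonneg hω h0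
  rcases hC.eq_or_lt with hC0 | hC0
  · have h5 := key m hm0 le_rfl
    rw [← hC0] at h5
    have h6 : 0 ≤ (72 * C + 1) * WA ω h * h := by positivity
    have h7 : 72 * (0 : ℝ) * h * (m * (ω m / m)) = 0 := by ring
    linarith
  · have h5 : (∫ x in a..(a + h), ‖f (pt x) - avg (fun x => f (pt x)) a (a + h)‖) / (72 * C * h) ≤
        adm ω m := by
      refine le_adm hm0 fun s hs hsm => ?_
      rw [div_le_iff₀ (by positivity), mul_comm]
      exact key s hs hsm
    rw [div_le_iff₀ (by positivity)] at h5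
    have h6 : 0 ≤ WA ω h * h := by positivity
    have h7 : adm ω m = WA ω h := rfl
    rw [h7] at h5
    linarith

lemma InBMO_of_osc_adm (hω : IsModulus ω) {f : Circle → ℂ} (h1 : InL1 f) {D : ℝ} (hD : 0 ≤ D)
    (hosc : ∀ a h, 0 < h → h < 1 → Osc (fun x => f (pt x)) a (a + h) (D * WA ω h)) :
    InBMO ω f := by
  refine ⟨h1, D, ?_⟩
  intro a h h0 h2
  have hωh := hω.2.2 h ⟨h0, h2⟩
  rw [div_le_iff₀ (by positivity), arcMean_eq]
  have h3 := hosc a h h0 h2
  unfold Osc at h3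
  refine h3.trans ?_
  have e : a + h - a = h := by ring
  rw [e]
  have h4 := (WA_le_adm hω h0 h2).trans (adm_le_self hω h0 h2)
  calc D * WA ω h * h ≤ D * ω h * h := by gcongr
    _ = _ := by ring

/-- `BMO_ω` is described by the corrected modulus -/
theorem InBMO_iff_adm (hω : IsModulus ω) (f : Circle → ℂ) :
    InBMO ω f ↔ InL1 f ∧ ∃ C : ℝ, ∀ a h : ℝ, 0 < h → h < 1 →
      (∫ x in a..(a + h), ‖f (pt x) - arcMean f a h‖) ≤ C * (h * adm ω h) := by
  constructor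
  · intro hf
    obtain ⟨A, hA, hosc⟩ := osc_adm hω hf
    refine ⟨hf.1, A, fun a h h0 h1 => ?_⟩
    have h2 := hosc a h h0 h1.le
    unfold Osc at h2
    have e : a + h - a = h := by ring
    rw [e] at h2
    rw [arcMean_eq]
    refine h2.trans ?_
    have h3 := WA_le_adm hω h0 h1
    calc A * WA ω h * h ≤ A * adm ω h * h := by gcongr
      _ = _ := by ring
  · rintro ⟨h1, C, hC⟩
    refine ⟨h1, max C 0, fun a h h0 h2 => ?_⟩
    have hωh := hω.2.2 h ⟨h0, h2⟩
    rw [div_le_iff₀ (by positivity)]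
    refine (hC a h h0 h2).trans ?_
    have h3 := adm_le_self hω h0 h2
    have h4 := adm_nonneg hω h0 h2
    calc C * (h * adm ω h) ≤ max C 0 * (h * adm ω h) := by gcongr; exact le_max_left _ _
      _ ≤ max C 0 * (h * ω h) := by gcongr

end Pool.Agent.H86.Div
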