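import Pool.Agent.H86.Div.Const

/-!
# Division by inner functions for every continuity modulus
-/

set_option autoImplicit false

open MeasureTheory Real Set Filter
open scoped Interval Topology

namespace Pool.Agent.H86.Div

open Pool.Agent.H94.Div

/-- Condition (iii_ε) with the corrected modulus: `|f(z)| ≤ C ω̃(1 - |z|)` for all `z ≠ 0` in the disc
with `|Θ(z)| < ε`. -/
def CondIIIc (ω : ℝ → ℝ) (ε : ℝ) (f θ : Circle → ℂ) : Prop :=
  ∃ C : ℝ, ∀ z : ℂ, z ≠ 0 → ‖z‖ < 1 → ‖poissonExt θ z‖ < ε →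
    ‖poissonExt f z‖ ≤ C * adm ω (1 - ‖z‖)

/-- The division property with the corrected modulus in (iii). -/
def CorrectedDivision (ω : ℝ → ℝ) (X : (Circle → ℂ) → Prop) : Prop :=
  ∀ f θ : Circle → ℂ, X f → InH1 f → IsInner θ →
    List.TFAE [
      X (fun ζ => f ζ * (starRingEnd ℂ) (θ ζ)),
      X (fun ζ => f ζ * θ ζ) ∧ InH1 (fun ζ => f ζ * θ ζ),
      ∃ ε ∈ Set.Ioo (0 : ℝ) 1, CondIIIc ω ε f θ,
      ∀ ε ∈ Set.Ioo (0 : ℝ) 1, CondIIIc ω ε f θ]

variable {ω : ℝ → ℝ}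

/-! ### The nondegenerate case -/

lemma FData_adm (hω : IsModulus ω) {f : Circle → ℂ} (hf : InBMO ω f) :
    ∃ A, FData (fun x => f (pt x)) (WA ω) A := by
  obtain ⟨A, hA, hosc⟩ := osc_adm hω hf
  exact ⟨A, ⟨pt_per f, hf.1.li, hA, hosc⟩⟩

lemma iii_of_CondIIIc (hω : IsModulus ω) (hpos : 0 < adm ω (1 / 2)) {f θ : Circle → ℂ}
    (hf : InL1 f) {ε : ℝ} (h : CondIIIc ω ε f θ) :
    ∃ K, 0 ≤ K ∧ ∀ z : ℂ, ‖z‖ < 1 → ‖ext (fun x => θ (pt x)) z‖ < ε →
      ‖ext (fun x => f (pt x)) z‖ ≤ K * WA ω (1 - ‖z‖) := by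
  obtain ⟨C, hC⟩ := h
  set n1 : ℝ := ∫ x in (0 : ℝ)..1, ‖f (pt x)‖ with hn1
  have hn10 : 0 ≤ n1 := intervalIntegral.integral_nonneg zero_le_one fun _ _ => norm_nonneg _
  refine ⟨max C 0 + 4 * n1 / adm ω (1 / 2), by positivity, fun z hz hΘ => ?_⟩
  have h0 : 0 < 1 - ‖z‖ := by linarith
  rcases lt_or_ge (1 - ‖z‖) (1 / 2) with h1 | h1
  · have hz0 : z ≠ 0 := by
      rintro rfl
      rw [norm_zero] at h1
      norm_num at h1
    have h2 := hC z hz0 hz hΘ
    have hω1 := adm_nonneg hω h0 (by linarith)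
    rw [WA_eq h1.le]
    refine h2.trans ?_
    gcongr
    have h3 : 0 ≤ 4 * n1 / adm ω (1 / 2) := by positivity
    linarith [le_max_left C 0]
  · rw [WA_eq' h1]
    have h2 : ‖ext (fun x => f (pt x)) z‖ ≤ 4 * n1 := by
      unfold Pool.Agent.H94.Div.ext
      calc ‖∫ x in (0 : ℝ)..1, (P z x : ℂ) * f (pt x)‖ ≤
            ∫ x in (0 : ℝ)..1, ‖(P z x : ℂ) * f (pt x)‖ :=
            intervalIntegral.norm_integral_le_integral_norm zero_le_one
        _ ≤ ∫ x in (0 : ℝ)..1, 4 * ‖f (pt x)‖ := by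
            apply intervalIntegral.integral_mono_on zero_le_one
              (integrable_P_mul hf.li hz 0 1).norm ((hf.li.norm 0 1).const_mul _)
            intro x _
            rw [norm_mul, Complex.norm_real, Real.norm_of_nonneg (P_nonneg hz x)]
            have h3 := P_le hz x
            have h4 : 2 / (1 - ‖z‖) ≤ 4 := by
              rw [div_le_iff₀ h0]; linarith
            gcongr
            exact h3.trans h4
        _ = _ := by rw [intervalIntegral.integral_const_mul]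
    refine h2.trans ?_
    have h3 : 4 * n1 = 4 * n1 / adm ω (1 / 2) * adm ω (1 / 2) := by field_simp
    calc 4 * n1 = 4 * n1 / adm ω (1 / 2) * adm ω (1 / 2) := h3
      _ ≤ _ := by
        gcongr
        linarith [le_max_right C 0]

lemma CondIIIc_of_iii (hω : IsModulus ω) {f θ : Circle → ℂ} {ε K : ℝ} (hK : 0 ≤ K)
    (h : ∀ z : ℂ, ‖z‖ < 1 → ‖ext (fun x => θ (pt x)) z‖ < ε →
      ‖ext (fun x => f (pt x)) z‖ ≤ K * WA ω (1 - ‖z‖)) : CondIIIc ω ε f θ := by
  refine ⟨K, fun z hz0 hz hΘ => ?_⟩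
  have hzpos : 0 < ‖z‖ := norm_pos_iff.2 hz0
  have h0 : 0 < 1 - ‖z‖ := by linarith
  refine (h z hz hΘ).trans ?_
  have := WA_le_adm hω h0 (by linarith)
  gcongr

theorem core_pos (hω : IsModulus ω) (hpos : 0 < adm ω (1 / 2)) {f θ : Circle → ℂ}
    (hf : InBMO ω f) (hf1 : InH1 f) (hθ : IsInner θ) :
    ((∃ ε ∈ Ioo (0 : ℝ) 1, CondIIIc ω ε f θ) →
      InBMO ω (fun ζ => f ζ * (starRingEnd ℂ) (θ ζ)) ∧ InBMO ω (fun ζ => f ζ * θ ζ) ∧
        InH1 (fun ζ => f ζ * θ ζ)) ∧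
    (InBMO ω (fun ζ => f ζ * (starRingEnd ℂ) (θ ζ)) → ∀ ε ∈ Ioo (0 : ℝ) 1, CondIIIc ω ε f θ) ∧
    (InBMO ω (fun ζ => f ζ * θ ζ) → ∀ ε ∈ Ioo (0 : ℝ) 1, CondIIIc ω ε f θ) := by
  have hW := WData_adm hω hpos
  obtain ⟨A, hF⟩ := FData_adm hω hf
  have hn := NoNeg_of_InH1 hf1
  have hI := Inner_of_IsInner hθ
  have hA := hF.pos
  refine ⟨?_, ?_, ?_⟩
  · rintro ⟨ε, hε, hiii⟩
    obtain ⟨K, hK, hiii'⟩ := iii_of_CondIIIc hω hpos hf1.1 hiii
    obtain ⟨D, hD, hcore⟩ := suff_core hW hF hn hI hε.1 hε.2 hK hiii'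
    have hcore' : ∀ a h, 0 < h → h ≤ 1 → ∃ c : ℂ,
        ‖avg (fun x => f (pt x)) a (a + h)‖ * (∫ x in a..(a + h), ‖θ (pt x) - c‖) ≤
          D * WA ω h * h := by
      intro a h h0 h1
      obtain ⟨c, -, hc⟩ := hcore (a + h / 2) h h0 h1
      have e1 : a + h / 2 - h / 2 = a := by ring
      have e2 : a + h / 2 + h / 2 = a + h := by ring
      rw [e1, e2] at hc
      exact ⟨c, hc⟩
    have hle : ∀ᵐ x : ℝ, ‖θ (pt x)‖ ≤ 1 := hI.ae_le
    refine ⟨?_, ?_, ?_, ?_⟩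
    · apply InBMO_of_osc_adm hω (D := 2 * (A + D)) _ (by positivity)
      · intro a h h0 h1
        obtain ⟨c, hc⟩ := hcore' a h h0 h1.le
        have h2 := osc_mul_of_core (f := fun x => f (pt x))
          (θ := fun x => (starRingEnd ℂ) (θ (pt x))) hF (LI_conj hI.li) (by
            filter_upwards [hI.one] with x hx
            rw [RCLike.norm_conj]; exact hx) (c := (starRingEnd ℂ) c) (D := D) (a := a) h0 h1.le
          (by
            have e : ∀ x, ‖(starRingEnd ℂ) (θ (pt x)) - (starRingEnd ℂ) c‖ = ‖θ (pt x) - c‖ := by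
              intro x
              rw [← map_sub, RCLike.norm_conj]
            simp only [e]
            exact hc)
        have e : 2 * ((A + D) * WA ω h) = 2 * (A + D) * WA ω h := by ring
        rw [e] at h2
        exact h2
      · exact LI_mul hF.li (LI_conj hI.li) (by
          filter_upwards [hle] with x hx
          rw [RCLike.norm_conj]; exact hx) 0 1
    · apply InBMO_of_osc_adm hω (D := 2 * (A + D)) _ (by positivity)
      · intro a h h0 h1
        obtain ⟨c, hc⟩ := hcore' a h h0 h1.le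
        have h2 := osc_mul_of_core (f := fun x => f (pt x)) (θ := fun x => θ (pt x)) hF hI.li
          hI.one (c := c) (D := D) (a := a) h0 h1.le hc
        have e : 2 * ((A + D) * WA ω h) = 2 * (A + D) * WA ω h := by ring
        rw [e] at h2
        exact h2
      · exact LI_mul hF.li hI.li hle 0 1
    · exact LI_mul hF.li hI.li hle 0 1
    · exact NoNeg_mul hF.per hF.li hn hI.per hI.li hI.nn hle
  · intro h ε hε
    obtain ⟨B, hG⟩ := FData_adm hω h
    have hB := hG.pos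
    have h1ε : 0 < 1 - ε := by linarith [hε.2]
    exact CondIIIc_of_iii hω (K := (3600 * (A * 1) + 3600 * (B * 1) + (A + B)) / (1 - ε))
      (by positivity)
      fun z hz hΘ => iii_of_i hW hF hn hI hG hε.1 hε.2 hz hΘ
  · intro h ε hε
    obtain ⟨B, hG⟩ := FData_adm hω h
    have hB := hG.pos
    have h1ε : 0 < 1 - ε := by linarith [hε.2]
    exact CondIIIc_of_iii hω (K := (3600 * (A * 1) + 3600 * (B * 1) + (A + B)) / (1 - ε))
      (by positivity)
      fun z hz hΘ => iii_of_ii hW hF hn hI hG hε.2 hz hΘ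

/-! ### The degenerate case -/

lemma adm_eq_zero (hω : IsModulus ω) (h0 : adm ω (1 / 2) = 0) {t : ℝ} (ht0 : 0 < t) (ht1 : t < 1) :
    adm ω t = 0 := by
  refine le_antisymm ?_ (adm_nonneg hω ht0 ht1)
  rcases le_or_gt t (1 / 2) with h | h
  · exact (adm_mono hω ht0 h (by norm_num)).trans h0.le
  · refine (adm_growth hω (s := 1 / 2) (by norm_num) h.le ht1).trans ?_
    rw [h0, mul_zero]

/-- in the degenerate case all elements of `BMO_ω` are constant -/
lemma const_of_InBMO (hω : IsModulus ω) (h0 : adm ω (1 / 2) = 0) {f : Circle → ℂ}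
    (hf : InBMO ω f) : ∃ c : ℂ, ∀ᵐ x : ℝ, f (pt x) = c := by
  obtain ⟨A, -, hosc⟩ := osc_adm hω hf
  have h1 := hosc 0 1 one_pos le_rfl
  rw [WA_eq' (by norm_num), h0, mul_zero, zero_add] at h1
  exact ⟨_, ae_const_of_osc_zero (pt_per f) hf.1.li h1⟩

lemma InBMO_of_ae_const {f : Circle → ℂ} {c : ℂ}
    (h : ∀ᵐ x : ℝ, f (pt x) = c) : InBMO ω f := by
  have hli : InL1 f := by
    have : IntervalIntegrable (fun _ : ℝ => c) volume 0 1 := intervalIntegrable_const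
    refine this.congr_ae ?_
    filter_upwards [ae_restrict_of_ae h] with x hx
    exact hx.symm
  refine ⟨hli, 0, fun a h' h0 h1 => ?_⟩
  have hm : arcMean f a h' = c := by
    unfold arcMean
    have e : ∫ x in a..(a + h'), f (pt x) = ∫ _x in a..(a + h'), c := by
      apply intervalIntegral.integral_congr_ae
      filter_upwards [h] with x hx _
      exact hx
    rw [e, intervalIntegral.integral_const]
    have hh : (h' : ℂ) ≠ 0 := by exact_mod_cast h0.ne'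
    have e2 : a + h' - a = h' := by ring
    rw [e2, Complex.real_smul]
    field_simp
  have e : ∫ x in a..(a + h'), ‖f (pt x) - arcMean f a h'‖ = ∫ _x in a..(a + h'), (0 : ℝ) := by
    apply intervalIntegral.integral_congr_ae
    filter_upwards [h] with x hx _
    rw [hm, hx, sub_self, norm_zero]
  rw [e, intervalIntegral.integral_zero, zero_div]

lemma InH1_of_ae_const {f : Circle → ℂ} {c : ℂ} (h : ∀ᵐ x : ℝ, f (pt x) = c) : InH1 f := by
  have hli : InL1 f := by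
    have : IntervalIntegrable (fun _ : ℝ => c) volume 0 1 := intervalIntegrable_const
    refine this.congr_ae ?_
    filter_upwards [ae_restrict_of_ae h] with x hx
    exact hx.symm
  refine ⟨hli, fun n hn => ?_⟩
  rw [← (InH1_const c).2 n hn]
  apply intervalIntegral.integral_congr_ae
  filter_upwards [h] with x hx _
  rw [hx]

lemma poissonExt_of_ae_const {f : Circle → ℂ} {c : ℂ} (h : ∀ᵐ x : ℝ, f (pt x) = c) {z : ℂ}
    (hz : ‖z‖ < 1) : poissonExt f z = c := by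
  rw [← ext_const c hz, poissonExt_eq]
  unfold Pool.Agent.H94.Div.ext
  apply intervalIntegral.integral_congr_ae
  filter_upwards [h] with x hx _
  rw [hx]

theorem core_zero (hω : IsModulus ω) (h0 : adm ω (1 / 2) = 0) {f θ : Circle → ℂ}
    (hf : InBMO ω f) (hθ : IsInner θ) :
    ((∃ ε ∈ Ioo (0 : ℝ) 1, CondIIIc ω ε f θ) →
      InBMO ω (fun ζ => f ζ * (starRingEnd ℂ) (θ ζ)) ∧ InBMO ω (fun ζ => f ζ * θ ζ) ∧
        InH1 (fun ζ => f ζ * θ ζ)) ∧
    (InBMO ω (fun ζ => f ζ * (starRingEnd ℂ) (θ ζ)) → ∀ ε ∈ Ioo (0 : ℝ) 1, CondIIIc ω ε f θ) ∧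
    (InBMO ω (fun ζ => f ζ * θ ζ) → ∀ ε ∈ Ioo (0 : ℝ) 1, CondIIIc ω ε f θ) := by
  obtain ⟨c, hc⟩ := const_of_InBMO hω h0 hf
  have hI := Inner_of_IsInner hθ
  -- if `c = 0` or `θ` is constant, everything holds
  have good : (c = 0 ∨ ∃ d : ℂ, ∀ᵐ x : ℝ, θ (pt x) = d) →
      (InBMO ω (fun ζ => f ζ * (starRingEnd ℂ) (θ ζ)) ∧ InBMO ω (fun ζ => f ζ * θ ζ) ∧
        InH1 (fun ζ => f ζ * θ ζ)) ∧ ∀ ε ∈ Ioo (0 : ℝ) 1, CondIIIc ω ε f θ := by
    rintro (hc0 | ⟨d, hd⟩)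
    · have e1 : ∀ᵐ x : ℝ, f (pt x) * (starRingEnd ℂ) (θ (pt x)) = 0 := by
        filter_upwards [hc] with x hx
        rw [hx, hc0, zero_mul]
      have e2 : ∀ᵐ x : ℝ, f (pt x) * θ (pt x) = 0 := by
        filter_upwards [hc] with x hx
        rw [hx, hc0, zero_mul]
      refine ⟨⟨InBMO_of_ae_const e1, InBMO_of_ae_const e2, InH1_of_ae_const e2⟩,
        fun ε _ => ⟨0, fun z _ hz _ => ?_⟩⟩
      rw [poissonExt_of_ae_const hc hz, hc0, norm_zero, zero_mul]
    · have e1 : ∀ᵐ x : ℝ, f (pt x) * (starRingEnd ℂ) (θ (pt x)) = c * (starRingEnd ℂ) d := by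
        filter_upwards [hc, hd] with x hx hx2
        rw [hx, hx2]
      have e2 : ∀ᵐ x : ℝ, f (pt x) * θ (pt x) = c * d := by
        filter_upwards [hc, hd] with x hx hx2
        rw [hx, hx2]
      refine ⟨⟨InBMO_of_ae_const e1, InBMO_of_ae_const e2, InH1_of_ae_const e2⟩,
        fun ε hε => ⟨0, fun z _ hz hΘ => ?_⟩⟩
      exfalso
      rw [poissonExt_of_ae_const hd hz] at hΘ
      have hd1 : ‖d‖ = 1 := by
        obtain ⟨x, hx1, hx2⟩ := (hd.and hθ.2).exists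
        rw [← hx1, hx2]
      rw [hd1] at hΘ
      linarith [hε.2]
  refine ⟨?_, ?_, ?_⟩
  · rintro ⟨ε, hε, C, hC⟩
    refine (good ?_).1
    by_cases hc0 : c = 0
    · exact Or.inl hc0
    · right
      refine inner_const hI hε.1 fun z hz0 hz => ?_
      by_contra hcon
      push Not at hcon
      have h1 := hC z hz0 hz hcon
      rw [poissonExt_of_ae_const hc hz, adm_eq_zero hω h0 (by linarith) (by
        have := norm_pos_iff.2 hz0
        linarith), mul_zero] at h1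
      exact hc0 (norm_le_zero_iff.1 h1)
  · intro h
    refine (good ?_).2
    by_cases hc0 : c = 0
    · exact Or.inl hc0
    · right
      obtain ⟨d, hd⟩ := const_of_InBMO hω h0 h
      refine ⟨(starRingEnd ℂ) (d / c), ?_⟩
      filter_upwards [hc, hd] with x hx hx2
      have h1 : (starRingEnd ℂ) (θ (pt x)) = d / c := by
        rw [eq_div_iff hc0, mul_comm, ← hx2, hx]
      rw [← h1, Complex.conj_conj]
  · intro h
    refine (good ?_).2
    by_cases hc0 : c = 0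
    · exact Or.inl hc0
    · right
      obtain ⟨d, hd⟩ := const_of_InBMO hω h0 h
      refine ⟨d / c, ?_⟩
      filter_upwards [hc, hd] with x hx hx2
      rw [eq_div_iff hc0, mul_comm, ← hx2, hx]

theorem core_all (hω : IsModulus ω) {f θ : Circle → ℂ}
    (hf : InBMO ω f) (hf1 : InH1 f) (hθ : IsInner θ) :
    ((∃ ε ∈ Ioo (0 : ℝ) 1, CondIIIc ω ε f θ) →
      InBMO ω (fun ζ => f ζ * (starRingEnd ℂ) (θ ζ)) ∧ InBMO ω (fun ζ => f ζ * θ ζ) ∧
        InH1 (fun ζ => f ζ * θ ζ)) ∧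
    (InBMO ω (fun ζ => f ζ * (starRingEnd ℂ) (θ ζ)) → ∀ ε ∈ Ioo (0 : ℝ) 1, CondIIIc ω ε f θ) ∧
    (InBMO ω (fun ζ => f ζ * θ ζ) → ∀ ε ∈ Ioo (0 : ℝ) 1, CondIIIc ω ε f θ) := by
  rcases (adm_nonneg hω (t := 1 / 2) (by norm_num) (by norm_num)).eq_or_lt with h | h
  · exact core_zero hω h.symm hf hθ
  · exact core_pos hω h hf hf1 hθ

/-- the corrected division property holds for every modulus -/
theorem corrected (hω : IsModulus ω) : CorrectedDivision ω (InBMO ω) := by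
  intro f θ hf hf1 hθ
  obtain ⟨h1, h2, h3⟩ := core_all hω hf hf1 hθ
  tfae_have 3 → 1 := fun h => (h1 h).1
  tfae_have 3 → 2 := fun h => (h1 h).2
  tfae_have 1 → 4 := h2
  tfae_have 2 → 4 := fun h => h3 h.1
  tfae_have 4 → 3 := fun h => ⟨1 / 2, ⟨by norm_num, by norm_num⟩,
    h (1 / 2) ⟨by norm_num, by norm_num⟩⟩
  tfae_finish

theorem corrected_inf (hω : IsModulus ω) : CorrectedDivision ω (InBMOLinf ω) := by
  intro f θ hf hf1 hθ
  obtain ⟨h1, h2, h3⟩ := core_all hω hf.1 hf1 hθ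
  obtain ⟨M, hM⟩ := hf.2
  have b1 : ∃ M : ℝ, ∀ᵐ x : ℝ, ‖f (pt x) * (starRingEnd ℂ) (θ (pt x))‖ ≤ M := by
    refine ⟨M, ?_⟩
    filter_upwards [hM, hθ.2] with x hx hx2
    rw [norm_mul, RCLike.norm_conj, hx2, mul_one]
    exact hx
  have b2 : ∃ M : ℝ, ∀ᵐ x : ℝ, ‖f (pt x) * θ (pt x)‖ ≤ M := by
    refine ⟨M, ?_⟩
    filter_upwards [hM, hθ.2] with x hx hx2
    rw [norm_mul, hx2, mul_one]
    exact hx
  tfae_have 3 → 1 := fun h => ⟨(h1 h).1, b1⟩
  tfae_have 3 → 2 := fun h => ⟨⟨(h1 h).2.1, b2⟩, (h1 h).2.2⟩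
  tfae_have 1 → 4 := fun h => h2 h.1
  tfae_have 2 → 4 := fun h => h3 h.1.1
  tfae_have 4 → 3 := fun h => ⟨1 / 2, ⟨by norm_num, by norm_num⟩,
    h (1 / 2) ⟨by norm_num, by norm_num⟩⟩
  tfae_finish

end Pool.Agent.H86.Div
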