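import Pool.Agent.H86.Div.Adm

/-!
# An inner function bounded below is constant; functions without oscillation
-/

set_option autoImplicit false

open MeasureTheory Real Set Filter
open scoped Interval Topology

namespace Pool.Agent.H86.Div

open Pool.Agent.H94.Div

/-- a periodic function whose restriction to `[0,1]` is a.e. constant is a.e. constant -/
lemma ae_of_unit {g : ℝ → ℂ} (hp : Function.Periodic g 1) {c : ℂ}
    (h : ∀ᵐ x : ℝ, x ∈ Ioc (0 : ℝ) 1 → g x = c) : ∀ᵐ x : ℝ, g x = c := by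
  have h1 : volume ({x : ℝ | g x ≠ c} ∩ Ioc (0 : ℝ) 1) = 0 := by
    rw [ae_iff] at h
    convert h using 2
    ext x
    constructor
    · rintro ⟨h1, h2⟩ h3
      exact h1 (h3 h2)
    · intro h1
      by_contra h2
      exact h1 fun h3 => by_contra fun h4 => h2 ⟨h4, h3⟩
  rw [ae_iff]
  have h2 : {x : ℝ | ¬ g x = c} ⊆ ⋃ n : ℤ, (fun x => x + (n : ℝ)) ⁻¹' ({x : ℝ | g x ≠ c} ∩ Ioc (0 : ℝ) 1) := by
    intro x hx
    rw [mem_iUnion]
    obtain ⟨n, hn, -⟩ := existsUnique_add_zsmul_mem_Ioc (zero_lt_one : (0 : ℝ) < 1) x 0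
    refine ⟨n, ?_, ?_⟩
    · have h3 : g (x + (n : ℝ)) = g x := by
        have h4 := hp.int_mul n x
        rwa [mul_one] at h4
      show g (x + (n : ℝ)) ≠ c
      rw [h3]
      exact hx
    · simpa using hn
  refine measure_mono_null h2 (measure_iUnion_null fun n => ?_)
  rw [measure_preimage_add_right]
  exact h1

lemma ae_const_of_osc_zero {g : ℝ → ℂ} (hp : Function.Periodic g 1) (hg : LI g)
    (h : Osc g 0 1 0) : ∀ᵐ x : ℝ, g x = avg g 0 1 := by
  apply ae_of_unit hp
  unfold Osc at h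
  have h1 : ∫ x in (0 : ℝ)..1, ‖g x - avg g 0 1‖ = 0 :=
    le_antisymm (by simpa using h) (intervalIntegral.integral_nonneg zero_le_one fun _ _ => norm_nonneg _)
  rw [intervalIntegral.integral_of_le zero_le_one] at h1
  have hi := (hg.norm_sub (avg g 0 1) 0 1)
  rw [intervalIntegrable_iff_integrableOn_Ioc_of_le zero_le_one] at hi
  rw [integral_eq_zero_iff_of_nonneg (fun _ => norm_nonneg _) hi] at h1
  have h2 := (ae_restrict_iff' measurableSet_Ioc).1 h1
  filter_upwards [h2] with x hx hx1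
  have := hx hx1
  simp only [Pi.zero_apply, norm_eq_zero] at this
  exact sub_eq_zero.1 this

/-- an inner function which is bounded below in the disc is constant -/
lemma inner_const {θ : ℝ → ℂ} (hθ : Inner θ) {ε : ℝ} (hε : 0 < ε)
    (h : ∀ z : ℂ, z ≠ 0 → ‖z‖ < 1 → ε ≤ ‖ext θ z‖) : ∃ c : ℂ, ∀ᵐ x : ℝ, θ x = c := by
  have hd := hθ.diff
  have hc : ContinuousOn (ext θ) (Metric.ball 0 1) := hd.continuousOn
  -- the bound at the centre
  have hall : ∀ z : ℂ, ‖z‖ < 1 → ε ≤ ‖ext θ z‖ := by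
    intro z hz
    rcases eq_or_ne z 0 with rfl | h0
    · have h1 : ContinuousAt (ext θ) 0 := hc.continuousAt (Metric.ball_mem_nhds 0 one_pos)
      have h2 : Tendsto (fun z => ‖ext θ z‖) (𝓝[≠] (0 : ℂ)) (𝓝 ‖ext θ 0‖) :=
        (h1.norm.tendsto).mono_left nhdsWithin_le_nhds
      refine ge_of_tendsto h2 ?_
      have h3 : ∀ᶠ z : ℂ in 𝓝[≠] (0 : ℂ), z ∈ Metric.ball (0 : ℂ) 1 :=
        mem_nhdsWithin_of_mem_nhds (Metric.ball_mem_nhds 0 one_pos)
      filter_upwards [h3, self_mem_nhdsWithin] with z hz1 hz2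
      exact h z hz2 (by simpa using hz1)
    · exact h z h0 hz
  have hne : ∀ z ∈ Metric.ball (0 : ℂ) 1, ext θ z ≠ 0 := by
    intro z hz h0
    have := hall z (by simpa using hz)
    rw [h0, norm_zero] at this
    linarith
  have hG : DifferentiableOn ℂ (fun z => (ext θ z)⁻¹) (Metric.ball 0 1) := hd.inv hne
  have hP0 : ∀ x, P 0 x = 1 := by
    intro x
    unfold P
    rw [norm_zero, sub_zero, norm_E]
    norm_num
  have hmean : ∫ x in (0 : ℝ)..1, θ x = ext θ 0 := by
    unfold Pool.Agent.H94.Div.ext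
    simp only [hP0, Complex.ofReal_one, one_mul]
  -- the value `1 / Θ(0)` is the conjugate of `Θ(0)`
  have hkey : (ext θ 0)⁻¹ = (starRingEnd ℂ) (ext θ 0) := by
    rw [← sub_eq_zero, ← norm_eq_zero]
    refine le_antisymm (le_of_forall_pos_le_add fun η hη => ?_) (norm_nonneg _)
    rw [zero_add]
    obtain ⟨r₀, hr₀, hr⟩ := ext_tendsto_L1 hθ.per hθ.li (ε := η * ε) (by positivity)
    set r : ℝ := max r₀ 0 with hrdef
    have hr0 : 0 ≤ r := le_max_right _ _
    have hr1 : r < 1 := max_lt hr₀ one_pos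
    have h1 := hr r (le_max_left _ _) hr0 hr1
    have h2 := poisson_formula (diffContOnCl_scale hG hr0 hr1) (z := 0) (by simp)
    simp only [hP0, Complex.ofReal_one, one_mul, mul_zero] at h2
    have h3 : ∫ x in (0 : ℝ)..1, (starRingEnd ℂ) (θ x) = (starRingEnd ℂ) (ext θ 0) := by
      rw [← hmean]
      rw [intervalIntegral.integral_of_le zero_le_one, intervalIntegral.integral_of_le zero_le_one,
        integral_conj]
    have hz : ∀ x, ‖(r : ℂ) * E x‖ < 1 := fun x => by rw [norm_mul_E hr0]; exact hr1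
    have hcr := continuous_ext_circle hθ.li hr0 hr1
    have hner : ∀ x, ext θ ((r : ℂ) * E x) ≠ 0 := fun x => hne _ (by simpa using hz x)
    have i1 : IntervalIntegrable (fun x => (ext θ ((r : ℂ) * E x))⁻¹) volume 0 1 :=
      (hcr.inv₀ hner).intervalIntegrable _ _
    have i2 : IntervalIntegrable (fun x => (starRingEnd ℂ) (θ x)) volume 0 1 := LI_conj hθ.li 0 1
    rw [← h2, ← h3, ← intervalIntegral.integral_sub i1 i2]
    have h4 : ‖∫ x in (0 : ℝ)..1, ((ext θ ((r : ℂ) * E x))⁻¹ - (starRingEnd ℂ) (θ x))‖ ≤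
        ∫ x in (0 : ℝ)..1, ε⁻¹ * ‖ext θ ((r : ℂ) * E x) - θ x‖ := by
      apply intervalIntegral.norm_integral_le_of_norm_le zero_le_one
      · filter_upwards [hθ.one] with x hx _
        have h5 : θ x ≠ 0 := by
          intro h0
          rw [h0, norm_zero] at hx
          exact zero_ne_one hx
        have h6 : (starRingEnd ℂ) (θ x) = (θ x)⁻¹ := by
          rw [Complex.inv_def, Complex.normSq_eq_norm_sq, hx]
          simp
        have h7 : (ext θ ((r : ℂ) * E x))⁻¹ - (θ x)⁻¹ =
            (θ x - ext θ ((r : ℂ) * E x)) / (ext θ ((r : ℂ) * E x) * θ x) := by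
          have := hner x
          field_simp
        rw [h6, h7, norm_div, norm_mul, hx, mul_one, norm_sub_rev, div_eq_mul_inv, mul_comm]
        gcongr
        exact hall _ (hz x)
      · have i3 : IntervalIntegrable (fun x => ‖ext θ ((r : ℂ) * E x) - θ x‖) volume 0 1 :=
          ((hcr.intervalIntegrable 0 1).sub (hθ.li 0 1)).norm
        exact i3.const_mul _
    refine h4.trans ?_
    rw [intervalIntegral.integral_const_mul]
    calc ε⁻¹ * ∫ x in (0 : ℝ)..1, ‖ext θ ((r : ℂ) * E x) - θ x‖ ≤ ε⁻¹ * (η * ε) := by gcongr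
      _ = η := by field_simp
  have h0 : ext θ 0 ≠ 0 := hne 0 (by simp)
  have hn : ‖ext θ 0‖ ^ 2 = 1 := by
    have h1 : ext θ 0 * (starRingEnd ℂ) (ext θ 0) = 1 := by
      rw [← hkey, mul_inv_cancel₀ h0]
    rw [Complex.mul_conj, Complex.normSq_eq_norm_sq] at h1
    exact_mod_cast h1
  have hv := var_formula hθ.li hθ.one (w := 0) (by simp)
  rw [hn, sub_self] at hv
  simp only [hP0, one_mul] at hv
  refine ⟨ext θ 0, ae_of_unit hθ.per ?_⟩
  rw [intervalIntegral.integral_of_le zero_le_one] at hv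
  have hi : Integrable (fun x => ‖θ x - ext θ 0‖ ^ 2) (volume.restrict (Ioc 0 1)) := by
    have hm : AEStronglyMeasurable (fun x => ‖θ x - ext θ 0‖ ^ 2) (volume.restrict (Ioc 0 1)) := by
      have := (hθ.li 0 1).1.aestronglyMeasurable
      exact ((this.sub aestronglyMeasurable_const).norm.pow 2)
    refine (integrable_const (4 : ℝ)).mono' hm ?_
    · refine ae_restrict_of_ae ?_
      filter_upwards [hθ.one] with x hx
      rw [Real.norm_of_nonneg (by positivity)]
      have h1 : ‖θ x - ext θ 0‖ ≤ 2 := by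
        refine (norm_sub_le _ _).trans ?_
        have := hθ.norm_le (z := 0) (by simp)
        linarith
      nlinarith [norm_nonneg (θ x - ext θ 0)]
  rw [integral_eq_zero_iff_of_nonneg (fun _ => by positivity) hi] at hv
  have h2 := (ae_restrict_iff' measurableSet_Ioc).1 hv
  filter_upwards [h2] with x hx hx1
  have := hx hx1
  simp only [Pi.zero_apply, ne_eq, OfNat.ofNat_ne_zero, not_false_eq_true, pow_eq_zero_iff,
    norm_eq_zero] at this
  exact sub_eq_zero.1 this

end Pool.Agent.H86.Div
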